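import Mathlib

namespace Pool.Agent.Causal
open Classical

def D : Set (ℝ → ℝ) := {F : ℝ → ℝ | Monotone F ∧ (∀ x, 0 ≤ F x ∧ F x ≤ 1) ∧ (∀ x : ℝ, x ≤ 0 → F x = 0) ∧
            ∀ x : ℝ, ContinuousWithinAt F (Set.Iio x) x}

noncomputable def e0 : ℝ → ℝ := fun x : ℝ => if 0 < x then (1 : ℝ) else 0

/-- the non-causal triangle function -/
noncomputable def τ (F G : ℝ → ℝ) : ℝ → ℝ :=
  if G = e0 then F else if F = e0 then G else if F 2 = 1 ∧ G 2 = 1 then fun x => min (F x) (G x) else fun _ => 0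

lemma zero_mem : (fun _ : ℝ => (0 : ℝ)) ∈ D :=
  ⟨fun _ _ _ => le_rfl, fun _ => ⟨le_rfl, zero_le_one⟩, fun _ _ => rfl, fun _ => continuousWithinAt_const⟩

lemma min_mem {F G : ℝ → ℝ} (hF : F ∈ D) (hG : G ∈ D) : (fun x => min (F x) (G x)) ∈ D := by
  obtain ⟨h1, h2, h3, h4⟩ := hF
  obtain ⟨g1, g2, g3, g4⟩ := hG
  refine ⟨fun x y h => min_le_min (h1 h) (g1 h), fun x => ⟨le_min (h2 x).1 (g2 x).1, (min_le_left _ _).trans (h2 x).2⟩,
    fun x hx => by simp [h3 x hx, g3 x hx], fun x => (h4 x).min (g4 x)⟩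

lemma le_e0 {F : ℝ → ℝ} (hF : F ∈ D) : F ≤ e0 := by
  intro x
  unfold e0
  split_ifs with h
  · exact (hF.2.1 x).2
  · exact (hF.2.2.1 x (not_lt.1 h)).le

lemma τ_mem {F G : ℝ → ℝ} (hF : F ∈ D) (hG : G ∈ D) : τ F G ∈ D := by
  unfold τ
  split_ifs
  · exact hF
  · exact hG
  · exact min_mem hF hG
  · exact zero_mem

lemma τ_comm (F G : ℝ → ℝ) : τ F G = τ G F := by
  unfold τ
  by_cases h1 : F = e0 <;> by_cases h2 : G = e0
  · rw [if_pos h2, if_pos h1, h1, h2]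
  · rw [if_neg h2, if_pos h1, if_pos h1]
  · rw [if_pos h2, if_neg h1, if_pos h2]
  · rw [if_neg h2, if_neg h1, if_neg h1, if_neg h2]
    by_cases h3 : F 2 = 1 ∧ G 2 = 1
    · rw [if_pos h3, if_pos h3.symm]
      ext x; exact min_comm _ _
    · rw [if_neg h3, if_neg (fun h => h3 h.symm)]

lemma τ_e0 (F : ℝ → ℝ) : τ F e0 = F := by unfold τ; rw [if_pos rfl]

lemma e0_τ (F : ℝ → ℝ) : τ e0 F = F := by rw [τ_comm, τ_e0]

lemma τ_le_left {F G : ℝ → ℝ} (hF : F ∈ D) (hG : G ∈ D) : τ F G ≤ F := by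
  unfold τ
  split_ifs with h1 h2 h3
  · exact le_rfl
  · rw [h2]; exact le_e0 hG
  · intro x; exact min_le_left _ _
  · intro x; exact (hF.2.1 x).1

lemma τ_le_right {F G : ℝ → ℝ} (hF : F ∈ D) (hG : G ∈ D) : τ F G ≤ G := by
  rw [τ_comm]; exact τ_le_left hG hF

lemma τ_ne {F G : ℝ → ℝ} (hF : F ∈ D) (hG : G ∈ D) (h : F ≠ e0) : τ F G ≠ e0 := by
  intro h2
  apply h
  apply le_antisymm (le_e0 hF)
  rw [← h2]; exact τ_le_left hF hG

lemma τ_gen {F G : ℝ → ℝ} (h1 : F ≠ e0) (h2 : G ≠ e0) :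
    τ F G = if F 2 = 1 ∧ G 2 = 1 then fun x => min (F x) (G x) else fun _ => 0 := by
  unfold τ; rw [if_neg h2, if_neg h1]

lemma τ_two {F G : ℝ → ℝ} (h1 : F ≠ e0) (h2 : G ≠ e0) : (τ F G) 2 = 1 ↔ F 2 = 1 ∧ G 2 = 1 := by
  rw [τ_gen h1 h2]
  split_ifs with h
  · simp [h]
  · simp [h]

lemma τ_assoc {F G H : ℝ → ℝ} (hF : F ∈ D) (hG : G ∈ D) (hH : H ∈ D) : τ (τ F G) H = τ F (τ G H) := by
  by_cases h1 : F = e0
  · rw [h1, e0_τ, e0_τ]
  by_cases h2 : G = e0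
  · rw [h2, e0_τ, τ_e0]
  by_cases h3 : H = e0
  · rw [h3, τ_e0, τ_e0]
  have k1 : τ F G ≠ e0 := τ_ne hF hG h1
  have k2 : τ G H ≠ e0 := τ_ne hG hH h2
  rw [τ_gen k1 h3, τ_gen h1 k2]
  by_cases h : F 2 = 1 ∧ G 2 = 1 ∧ H 2 = 1
  · rw [if_pos ⟨(τ_two h1 h2).2 ⟨h.1, h.2.1⟩, h.2.2⟩, if_pos ⟨h.1, (τ_two h2 h3).2 h.2⟩]
    rw [τ_gen h1 h2, τ_gen h2 h3, if_pos ⟨h.1, h.2.1⟩, if_pos h.2]
    ext x; exact min_assoc _ _ _
  · rw [if_neg, if_neg]
    · rw [τ_two h2 h3]; exact h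
    · rw [τ_two h1 h2, and_assoc]; exact h

lemma τ_mono {F₁ F₂ G : ℝ → ℝ} (h1 : F₁ ∈ D) (h2 : F₂ ∈ D) (hG : G ∈ D) (h : F₁ ≤ F₂) : τ F₁ G ≤ τ F₂ G := by
  by_cases k1 : F₂ = e0
  · rw [k1, e0_τ]; exact τ_le_right h1 hG
  have k2 : F₁ ≠ e0 := by
    intro hh; apply k1; apply le_antisymm (le_e0 h2); rw [← hh]; exact h
  by_cases k3 : G = e0
  · rw [k3, τ_e0, τ_e0]; exact h
  rw [τ_gen k2 k3]
  split_ifs with h3
  · have : F₂ 2 = 1 := le_antisymm (h2.2.1 2).2 (by rw [← h3.1]; exact h 2)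
    rw [τ_gen k1 k3, if_pos ⟨this, h3.2⟩]
    intro x; exact min_le_min (h x) le_rfl
  · intro x; exact ((τ_mem h2 hG).2.1 x).1

/-- step function with values 0, 1/2, c -/
noncomputable def f (c : ℝ) : ℝ → ℝ := fun x => if x ≤ 1 then 0 else if x ≤ 3 / 2 then 1 / 2 else c

lemma f_mem (c : ℝ) (hc : 1 / 2 ≤ c) (hc1 : c ≤ 1) : f c ∈ D := by
  refine ⟨?_, ?_, ?_, ?_⟩
  · intro x y h
    unfold f
    split_ifs <;> linarith
  · intro x
    unfold f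
    split_ifs <;> constructor <;> linarith
  · intro x hx
    unfold f
    rw [if_pos (by linarith)]
  · intro x
    -- eventually constant to the left
    have key : ∃ δ > 0, ∀ y ∈ Set.Ioc (x - δ) x, f c y = f c x := by
      rcases le_or_gt x 1 with h | h
      · refine ⟨1, one_pos, fun y hy => ?_⟩
        unfold f
        rw [if_pos (hy.2.trans h), if_pos h]
      · rcases le_or_gt x (3 / 2) with h2 | h2
        · refine ⟨x - 1, by linarith, fun y hy => ?_⟩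
          unfold f
          rw [if_neg (by linarith [hy.1]), if_pos (hy.2.trans h2), if_neg (by linarith), if_pos h2]
        · refine ⟨x - 3 / 2, by linarith, fun y hy => ?_⟩
          unfold f
          rw [if_neg (by linarith [hy.1]), if_neg (by linarith [hy.1]), if_neg (by linarith), if_neg (by linarith)]
    obtain ⟨δ, hδ, hy⟩ := key
    apply ContinuousWithinAt.congr_of_eventuallyEq (f := fun _ => f c x) continuousWithinAt_const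
    · have h1 : Set.Ioo (x - δ) (x + δ) ∈ nhds x := Ioo_mem_nhds (by linarith) (by linarith)
      filter_upwards [mem_nhdsWithin_of_mem_nhds h1, self_mem_nhdsWithin] with y hy1 hy2
      exact hy y ⟨hy1.1, le_of_lt hy2⟩
    · rfl

theorem main : ¬ (∀ D : Set (ℝ → ℝ),
      D = {F : ℝ → ℝ | Monotone F ∧ (∀ x, 0 ≤ F x ∧ F x ≤ 1) ∧ (∀ x : ℝ, x ≤ 0 → F x = 0) ∧
            ∀ x : ℝ, ContinuousWithinAt F (Set.Iio x) x} →
      ∀ τ : (ℝ → ℝ) → (ℝ → ℝ) → (ℝ → ℝ),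
        (∀ F ∈ D, ∀ G ∈ D, τ F G ∈ D) →
        (∀ F ∈ D, ∀ G ∈ D, τ F G = τ G F) →
        (∀ F ∈ D, ∀ G ∈ D, ∀ H ∈ D, τ (τ F G) H = τ F (τ G H)) →
        (∀ F ∈ D, τ F (fun x : ℝ => if 0 < x then (1 : ℝ) else 0) = F) →
        (∀ F₁ ∈ D, ∀ F₂ ∈ D, ∀ G ∈ D, F₁ ≤ F₂ → τ F₁ G ≤ τ F₂ G) →
        ∀ a : ℝ, 0 < a →
          ∀ F₁ ∈ D, ∀ F₂ ∈ D, ∀ G₁ ∈ D, ∀ G₂ ∈ D,
            (∀ x : ℝ, x ≤ a → F₁ x ≤ F₂ x) →
            (∀ x : ℝ, x ≤ a → G₁ x ≤ G₂ x) →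
            ∀ x : ℝ, x ≤ a → τ F₁ G₁ x ≤ τ F₂ G₂ x) := by
  intro h
  have h1 := h D rfl τ (fun F hF G hG => τ_mem hF hG) (fun F _ G _ => τ_comm F G)
    (fun F hF G hG H hH => τ_assoc hF hG hH) (fun F hF => ?_)
    (fun F₁ h1 F₂ h2 G hG h => τ_mono h1 h2 hG h) (3 / 2) (by norm_num)
    (f 1) (f_mem 1 (by norm_num) le_rfl) (f (1 / 2)) (f_mem (1 / 2) le_rfl (by norm_num))
    (f 1) (f_mem 1 (by norm_num) le_rfl) (f (1 / 2)) (f_mem (1 / 2) le_rfl (by norm_num)) ?_ ?_ (3 / 2) le_rfl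
  · have e1 : f 1 ≠ e0 := by
      intro hh
      have := congrFun hh 1
      simp [f, e0] at this
    have e2 : f (1 / 2) ≠ e0 := by
      intro hh
      have := congrFun hh 1
      simp [f, e0] at this
    have t1 : f 1 2 = 1 := by unfold f; rw [if_neg (by norm_num), if_neg (by norm_num)]
    have t2 : f (1 / 2) 2 = 1 / 2 := by unfold f; rw [if_neg (by norm_num), if_neg (by norm_num)]
    rw [τ_gen e1 e1, if_pos ⟨t1, t1⟩, τ_gen e2 e2, if_neg (by rw [t2]; norm_num)] at h1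
    have t3 : f 1 (3 / 2) = 1 / 2 := by unfold f; rw [if_neg (by norm_num), if_pos le_rfl]
    simp only [t3, min_self] at h1
    norm_num at h1
  · have he : (fun x : ℝ => if 0 < x then (1 : ℝ) else 0) = e0 := by
      ext x
      by_cases hx : 0 < x
      · simp [e0, hx]
      · simp [e0, hx]
    rw [he]; exact τ_e0 F
  · intro x hx; unfold f; split_ifs <;> linarith
  · intro x hx; unfold f; split_ifs <;> linarith

end Pool.Agent.Causal
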